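import Pool.Agent.Helper20.Flip.Sh.Par
import Pool.Agent.Helper4.Flip.BStep
import Pool.Agent.Helper98.Flip.WBlocks

/-!
# The flips of the twin phase (module FLIP-S-TSTEP of MP_bfe50c)
-/

set_option autoImplicit false

namespace Pool.Agent.Helper20.Flip.Sh

open Pool.Agent.Helper20.Flip.BStep

namespace TStep

/-- the order of the blocks -/
def Rl (b b' : List Edge) : Prop :=
  dir b < dir b' ∨ (b.length = 1 ∧ b'.length = 1 ∧ dir b = dir b')

theorem cs_iff {bs : List (List Edge)} (hs : Small bs.flatten) (hg : ∀ b ∈ bs, GoodBlock b)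
    (hd : bs.Pairwise Rl) (c' : List Edge) :
    CStep bs.flatten c' ↔ ∃ bs₁ B bs₂, bs = bs₁ ++ [B] ++ bs₂ ∧ 2 ≤ B.length ∧
      c' = bs₁.flatten ++ flipBlock B ++ bs₂.flatten := by
  constructor
  · rintro ⟨X, B', Y, hc, hH, rfl⟩
    rw [hullBlock_iff' hs hg hd hc] at hH
    obtain ⟨hB', bs₁, bs₂, heq, rfl, rfl⟩ := hH
    exact ⟨bs₁, B', bs₂, heq, hB', rfl⟩
  · rintro ⟨bs₁, B, bs₂, heq, hB, rfl⟩
    refine ⟨bs₁.flatten, B, bs₂.flatten, by rw [heq]; simp, ?_, rfl⟩
    rw [hullBlock_iff' hs hg hd (by rw [heq]; simp)]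
    exact ⟨hB, bs₁, bs₂, heq, rfl, rfl⟩

/-- a group of three edges is cut into blocks -/
structure Grp (L : List (List Edge)) (e1 e2 e3 : Edge) : Prop where
  flat : L.flatten = [e1, e2, e3]
  good : ∀ b ∈ L, GoodBlock b
  pw : L.Pairwise Rl
  long : ∀ bs₁ B bs₂, L = bs₁ ++ [B] ++ bs₂ → 2 ≤ B.length →
    (e3.2 < e2.2 ∧ bs₁ = [[e1]] ∧ B = [e2, e3] ∧ bs₂ = []) ∨
    (e2.2 < e1.2 ∧ bs₁ = [] ∧ B = [e1, e2] ∧ bs₂ = [[e3]])
  ex1 : e3.2 < e2.2 → L = [[e1]] ++ [[e2, e3]] ++ []
  ex2 : e2.2 < e1.2 → L = [] ++ [[e1, e2]] ++ [[e3]]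

theorem split_two {α : Type} {x y : List α} {bs₁ : List (List α)} {B : List α}
    {bs₂ : List (List α)} (h : [x, y] = bs₁ ++ [B] ++ bs₂) :
    (bs₁ = [] ∧ B = x ∧ bs₂ = [y]) ∨ (bs₁ = [x] ∧ B = y ∧ bs₂ = []) := by
  match bs₁, h with
  | [], h =>
    simp only [List.nil_append, List.singleton_append, List.cons.injEq] at h
    exact Or.inl ⟨rfl, h.1.symm, h.2.symm⟩
  | [a], h =>
    simp only [List.cons_append, List.nil_append, List.cons.injEq] at h
    refine Or.inr ⟨by rw [h.1], h.2.1.symm, h.2.2.symm⟩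
  | a :: b :: l, h =>
    exfalso
    have := congrArg List.length h
    simp at this

theorem split_three {α : Type} {x y z : List α} {bs₁ : List (List α)} {B : List α}
    {bs₂ : List (List α)} (h : [x, y, z] = bs₁ ++ [B] ++ bs₂) : B = x ∨ B = y ∨ B = z := by
  have : B ∈ [x, y, z] := by rw [h]; simp
  simpa using this

theorem grp_exists {e1 e2 e3 : Edge} (hs : Small [e1, e2, e3]) (h13 : e1.2 < e3.2) :
    ∃ L, Grp L e1 e2 e3 := by
  have s1 : Small [e1] := small_sub hs (by simp)
  have s2 : Small [e2] := small_sub hs (by simp)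
  have s3 : Small [e3] := small_sub hs (by simp)
  have s12 : Small [e1, e2] := small_sub hs (by simp)
  have s23 : Small [e2, e3] := small_sub hs (by simp)
  have m1 := hs e1 (by simp)
  have m2 := hs e2 (by simp)
  have m3 := hs e3 (by simp)
  rcases lt_or_ge e3.2 e2.2 with h | h
  · have hb := (dir_two (l₁ := e2.1) (l₂ := e3.1) m2.1 m3.1 m2.2 m3.2 h).1
    refine ⟨[[e1], [e2, e3]], ⟨rfl, ?_, ?_, ?_, fun _ => rfl, fun h' => ?_⟩⟩
    · intro b hb'
      simp only [List.mem_cons, List.not_mem_nil, or_false] at hb'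
      rcases hb' with rfl | rfl
      · exact good_singleton _
      · exact good_two s23 h
    · simp only [List.pairwise_cons, List.mem_cons, List.not_mem_nil, or_false, forall_eq,
        IsEmpty.forall_iff, implies_true, List.Pairwise.nil, and_true]
      left
      rw [dir_singleton s1]
      exact h13.trans hb.1
    · intro bs₁ B bs₂ hL hB
      rcases split_two hL with ⟨-, rfl, -⟩ | ⟨rfl, rfl, rfl⟩
      · simp at hB
      · exact Or.inl ⟨h, rfl, rfl, rfl⟩
    · exfalso; linarith
  · rcases lt_or_ge e2.2 e1.2 with h' | h'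
    · have hb := (dir_two (l₁ := e1.1) (l₂ := e2.1) m1.1 m2.1 m1.2 m2.2 h').1
      refine ⟨[[e1, e2], [e3]], ⟨rfl, ?_, ?_, ?_, fun h'' => ?_, fun _ => rfl⟩⟩
      · intro b hb'
        simp only [List.mem_cons, List.not_mem_nil, or_false] at hb'
        rcases hb' with rfl | rfl
        · exact good_two s12 h'
        · exact good_singleton _
      · simp only [List.pairwise_cons, List.mem_cons, List.not_mem_nil, or_false, forall_eq,
          IsEmpty.forall_iff, implies_true, List.Pairwise.nil, and_true]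
        left
        rw [dir_singleton s3]
        exact hb.2.trans h13
      · intro bs₁ B bs₂ hL hB
        rcases split_two hL with ⟨rfl, rfl, rfl⟩ | ⟨-, rfl, -⟩
        · exact Or.inr ⟨h', rfl, rfl, rfl⟩
        · simp at hB
      · exfalso; linarith
    · refine ⟨[[e1], [e2], [e3]], ⟨rfl, ?_, ?_, ?_, fun h'' => ?_, fun h'' => ?_⟩⟩
      · intro b hb'
        simp only [List.mem_cons, List.not_mem_nil, or_false] at hb'
        rcases hb' with rfl | rfl | rfl <;> exact good_singleton _
      · have key : ∀ x y : Edge, Small [x] → Small [y] → x.2 ≤ y.2 → Rl [x] [y] := by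
          intro x y hx hy hxy
          rcases hxy.lt_or_eq with h1 | h1
          · left; rw [dir_singleton hx, dir_singleton hy]; exact h1
          · right; rw [dir_singleton hx, dir_singleton hy]; exact ⟨rfl, rfl, h1⟩
        simp only [List.pairwise_cons, List.mem_cons, List.not_mem_nil, or_false, forall_eq,
          IsEmpty.forall_iff, implies_true, List.Pairwise.nil, and_true, forall_eq_or_imp]
        exact ⟨⟨key _ _ s1 s2 h', key _ _ s1 s3 h13.le⟩, key _ _ s2 s3 h⟩
      · intro bs₁ B bs₂ hL hB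
        rcases split_three hL with rfl | rfl | rfl <;> simp at hB
      · exfalso; linarith
      · exfalso; linarith

/-- the directions of the blocks of a group -/
theorem Grp.dir_mem {L : List (List Edge)} {e1 e2 e3 : Edge} (hL : Grp L e1 e2 e3)
    (hs : Small [e1, e2, e3]) {lo hi : ℝ} (hlo : ∀ e ∈ [e1, e2, e3], lo ≤ e.2)
    (hhi : ∀ e ∈ [e1, e2, e3], e.2 ≤ hi) {b : List Edge} (hb : b ∈ L) :
    lo ≤ dir b ∧ dir b ≤ hi := by
  have hsub : ∀ e ∈ b, e ∈ [e1, e2, e3] := by
    intro e he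
    rw [← hL.flat]
    exact List.mem_flatten.2 ⟨b, hb, he⟩
  exact Flip.dir_mem (small_sub hs hsub) (hL.good b hb).1 (fun e he => hlo e (hsub e he))
    (fun e he => hhi e (hsub e he))

/-- three pieces: where is a long block -/
theorem cs3_iff {L R : List (List Edge)} {rest : List Edge}
    {e1 e2 e3 f1 f2 f3 : Edge} (hL : Grp L e1 e2 e3) (hR : Grp R f1 f2 f3)
    (hs : Small ([e1, e2, e3] ++ [f1, f2, f3] ++ rest)) {x1 x2 x3 : ℝ}
    (h1 : ∀ e ∈ [e1, e2, e3], e.2 ≤ x1) (h2 : ∀ e ∈ [f1, f2, f3], x1 < x2 ∧ x2 ≤ e.2 ∧ e.2 ≤ x3)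
    (h3 : ∀ e ∈ rest, x3 < e.2) (hr : Sorted rest) (c' : List Edge) :
    CStep ([e1, e2, e3] ++ [f1, f2, f3] ++ rest) c' ↔
      (e3.2 < e2.2 ∧ c' = [e1] ++ flipBlock [e2, e3] ++ [f1, f2, f3] ++ rest) ∨
      (e2.2 < e1.2 ∧ c' = flipBlock [e1, e2] ++ [e3] ++ [f1, f2, f3] ++ rest) ∨
      (f3.2 < f2.2 ∧ c' = [e1, e2, e3] ++ [f1] ++ flipBlock [f2, f3] ++ rest) ∨
      (f2.2 < f1.2 ∧ c' = [e1, e2, e3] ++ flipBlock [f1, f2] ++ [f3] ++ rest) := by
  have hsE : Small [e1, e2, e3] := small_sub hs (by intro e he; simp only [List.mem_append]; tauto)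
  have hsF : Small [f1, f2, f3] := small_sub hs (by intro e he; simp only [List.mem_append]; tauto)
  have hsr : Small rest := small_sub hs (by intro e he; simp only [List.mem_append]; tauto)
  set S : List (List Edge) := rest.map fun e => [e] with hS
  have hfl : (L ++ R ++ S).flatten = [e1, e2, e3] ++ [f1, f2, f3] ++ rest := by
    rw [List.flatten_append, List.flatten_append, hL.flat, hR.flat, hS, flatten_singletons]
  have hSd : ∀ b ∈ S, x3 < dir b := by
    intro b hb
    obtain ⟨e, he, rfl⟩ := List.mem_map.1 hb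
    rw [dir_singleton (small_sub hsr (by simpa using he))]
    exact h3 e he
  have hx12 : x1 < x2 := (h2 f1 (by simp)).1
  have hx23 : x2 ≤ x3 := (h2 f1 (by simp)).2.1.trans (h2 f1 (by simp)).2.2
  have hLd : ∀ b ∈ L, dir b ≤ x1 := fun b hb =>
    (hL.dir_mem hsE (lo := -(1 / 100)) (fun e he => (abs_le.1 (hsE e he).2).1) h1 hb).2
  have hRd : ∀ b ∈ R, x2 ≤ dir b ∧ dir b ≤ x3 := fun b hb =>
    hR.dir_mem hsF (fun e he => (h2 e he).2.1) (fun e he => (h2 e he).2.2) hb
  have hS1 : ∀ b ∈ S, b.length = 1 := by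
    intro b hb
    obtain ⟨e, -, rfl⟩ := List.mem_map.1 hb
    rfl
  have key := cs_iff (bs := L ++ R ++ S) (by rw [hfl]; exact hs)
    (by
      intro b hb
      simp only [List.mem_append] at hb
      rcases hb with (hb | hb) | hb
      · exact hL.good b hb
      · exact hR.good b hb
      · obtain ⟨e, -, rfl⟩ := List.mem_map.1 hb
        exact good_singleton _)
    (by
      rw [List.pairwise_append, List.pairwise_append]
      refine ⟨⟨hL.pw, hR.pw, ?_⟩, ?_, ?_⟩
      · intro a ha b hb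
        left
        linarith [hLd a ha, (hRd b hb).1]
      · have := pairwise_singletons hr hsr
        rw [List.pairwise_map] at this
        exact this.imp fun h => Or.inl h
      · intro a ha b hb
        left
        have h4 := hSd b hb
        rcases List.mem_append.1 ha with ha | ha
        · linarith [hLd a ha]
        · linarith [(hRd a ha).2]) c'
  rw [hfl] at key
  rw [key]
  constructor
  · rintro ⟨bs₁, B, bs₂, heq, hB, rfl⟩
    have heq' : L ++ (R ++ S) = bs₁ ++ ([B] ++ bs₂) := by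
      rw [← List.append_assoc, heq, List.append_assoc]
    rcases List.append_eq_append_iff.1 heq' with ⟨as, ha1, ha2⟩ | ⟨as, ha1, ha2⟩
    · -- `bs₁ = L ++ as`
      rcases List.append_eq_append_iff.1 ha2 with ⟨bs, hb1, hb2⟩ | ⟨bs, hb1, hb2⟩
      · exfalso
        have : B ∈ S := by rw [hb2]; simp
        have := hS1 B this
        omega
      · cases bs with
        | nil =>
          exfalso
          simp only [List.nil_append] at hb2
          have : B ∈ S := by rw [← hb2]; simp
          have := hS1 B this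
          omega
        | cons b bs =>
          simp only [List.cons_append, List.nil_append, List.cons.injEq] at hb2
          obtain ⟨rfl, rfl⟩ := hb2
          have hR' : R = as ++ [B] ++ bs := by rw [hb1]; simp
          rw [ha1]
          rcases hR.long as B bs hR' hB with ⟨h4, rfl, rfl, rfl⟩ | ⟨h4, rfl, rfl, rfl⟩
          · right; right; left
            refine ⟨h4, ?_⟩
            simp only [List.flatten_append, hL.flat, hS, flatten_singletons]
            simp
          · right; right; right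
            refine ⟨h4, ?_⟩
            simp only [List.flatten_append, hL.flat, hS, flatten_singletons]
            simp
    · cases as with
      | nil =>
        simp only [List.nil_append] at ha2
        have hbL : bs₁ = L := by rw [ha1, List.append_nil]
        have ha2' : R ++ S = [] ++ ([B] ++ bs₂) := by rw [← ha2]; rfl
        -- the long block is the first block of `R ++ S`
        rcases List.append_eq_append_iff.1 ha2' with ⟨bs, hb1, hb2⟩ | ⟨bs, hb1, hb2⟩
        · have hR0 : R = [] := by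
            have := hb1.symm
            simp only [List.append_eq_nil_iff] at this
            exact this.1
          have := hR.flat
          rw [hR0] at this
          simp at this
        · simp only [List.nil_append] at hb1
          cases bs with
          | nil =>
            have := hR.flat
            rw [hb1] at this
            simp at this
          | cons b bs =>
            simp only [List.cons_append, List.nil_append, List.cons.injEq] at hb2
            obtain ⟨rfl, rfl⟩ := hb2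
            have hR' : R = [] ++ [B] ++ bs := by rw [hb1]; simp
            rw [hbL]
            rcases hR.long [] B bs hR' hB with ⟨h4, h5, rfl, rfl⟩ | ⟨h4, -, rfl, rfl⟩
            · simp at h5
            · right; right; right
              refine ⟨h4, ?_⟩
              simp only [List.flatten_append, hL.flat, hS, flatten_singletons]
              simp
      | cons a as =>
        simp only [List.cons_append, List.nil_append, List.cons.injEq] at ha2
        obtain ⟨rfl, rfl⟩ := ha2
        have hL' : L = bs₁ ++ [B] ++ as := by rw [ha1]; simp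
        rcases hL.long bs₁ B as hL' hB with ⟨h4, rfl, rfl, rfl⟩ | ⟨h4, rfl, rfl, rfl⟩
        · left
          refine ⟨h4, ?_⟩
          simp only [List.flatten_append, hR.flat, hS, flatten_singletons]
          simp
        · right; left
          refine ⟨h4, ?_⟩
          simp only [List.flatten_append, hR.flat, hS, flatten_singletons]
          simp
  · rintro (⟨h, rfl⟩ | ⟨h, rfl⟩ | ⟨h, rfl⟩ | ⟨h, rfl⟩)
    · refine ⟨[[e1]], [e2, e3], R ++ S, by rw [hL.ex1 h]; simp, by simp, ?_⟩
      simp only [List.flatten_append, hR.flat, hS, flatten_singletons]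
      simp
    · refine ⟨[], [e1, e2], [[e3]] ++ (R ++ S), by rw [hL.ex2 h]; simp, by simp, ?_⟩
      simp only [List.flatten_append, hR.flat, hS, flatten_singletons]
      simp
    · refine ⟨L ++ [[f1]], [f2, f3], S, by rw [hR.ex1 h]; simp, by simp, ?_⟩
      simp only [List.flatten_append, hL.flat, hS, flatten_singletons]
      simp
    · refine ⟨L, [f1, f2], [[f3]] ++ S, by rw [hR.ex2 h]; simp, by simp, ?_⟩
      simp only [List.flatten_append, hL.flat, hS, flatten_singletons]
      simp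

/-- the flip of a block of two edges -/
theorem flip_two {τ l₁ l₂ x y : ℝ} (hτ : 0 < τ) (h1 : 0 < l₁) (h2 : 0 < l₂)
    (hx : |τ * x| ≤ 1 / 100) (hy : |τ * y| ≤ 1 / 100) (hyx : y < x) :
    ∃ x' y', flipBlock [(l₁, τ * x), (l₂, τ * y)] = [(l₁, τ * x'), (l₂, τ * y')] ∧
      y ≤ y' ∧ y' ≤ y + 4 * (l₁ / l₂) * (x - y) ∧ x' ≤ x ∧ x - 4 * (l₂ / l₁) * (x - y) ≤ x' ∧
      y' - x' = x - y := by
  have hlt : τ * y < τ * x := mul_lt_mul_of_pos_left hyx hτ
  obtain ⟨⟨d1, d2⟩, d3, d4⟩ := dir_two (l₁ := l₁) (l₂ := l₂) h1 h2 hx hy hlt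
  set d := dir [(l₁, τ * x), (l₂, τ * y)] with hd
  have e1 : τ * (2 * (d / τ) - x) = 2 * d - τ * x := by field_simp
  have e2 : τ * (2 * (d / τ) - y) = 2 * d - τ * y := by field_simp
  have hdy : d / τ - y = (d - τ * y) / τ := by field_simp
  have hdx : x - d / τ = (τ * x - d) / τ := by field_simp
  refine ⟨2 * (d / τ) - x, 2 * (d / τ) - y, ?_, ?_, ?_, ?_, ?_, by ring⟩
  · simp only [flipBlock, refl, List.map_cons, List.map_nil, e1, e2, ← hd]
  · have : 0 ≤ d / τ - y := by rw [hdy]; exact div_nonneg (by linarith) hτ.le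
    linarith
  · have h3 : d / τ - y ≤ 2 * (l₁ / l₂) * (x - y) := by
      rw [hdy, div_le_iff₀ hτ]
      calc d - τ * y ≤ 2 * (l₁ / l₂) * (τ * x - τ * y) := d3
        _ = 2 * (l₁ / l₂) * (x - y) * τ := by ring
    linarith
  · have : 0 ≤ x - d / τ := by rw [hdx]; exact div_nonneg (by linarith) hτ.le
    linarith
  · have h3 : x - d / τ ≤ 2 * (l₂ / l₁) * (x - y) := by
      rw [hdx, div_le_iff₀ hτ]
      calc τ * x - d ≤ 2 * (l₂ / l₁) * (τ * x - τ * y) := d4
        _ = 2 * (l₂ / l₁) * (x - y) * τ := by ring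
    linarith

end TStep

open TStep

theorem ech_ok {N : ℕ} {τ e lz lp la lb lr lu : ℝ} {rest : List Edge}
    (hE : EState N τ e lz lp la lb lr lu rest) {z p a b r u : ℝ} (h : TRange z p a b r u) :
    Ok N (ech τ lz lp la lb lr lu rest z p a b r u) := by
  have hτ := hE.hτ
  have hτ' := hE.hτ'
  have he := hE.he
  have he1 : e ≤ 1 / 100 := he.trans (by norm_num)
  have ab : ∀ x : ℝ, |x| ≤ 1 → |τ * x| ≤ 1 / 100 := fun x hx => by
    rw [abs_mul, abs_of_pos hτ]
    calc τ * |x| ≤ 1 / 200 * 1 := mul_le_mul hτ' hx (abs_nonneg _) (by norm_num)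
      _ ≤ 1 / 100 := by norm_num
  have b1 : ∀ x : ℝ, -(1 / 8) ≤ x → x ≤ 1 / 2 → |x| ≤ 1 := fun x h1 h2 =>
    abs_le.2 ⟨by linarith, by linarith⟩
  have h1 := h.hz
  have h2 := h.hza
  have h3 := h.ha
  have h4 := h.hp
  have h5 := h.hp'
  have h6 := h.hb
  have h7 := h.hbu
  have h8 := h.hu
  have h9 := h.hr
  have h10 := h.hr'
  refine ⟨?_, ?_, ?_⟩
  · simp only [ech, List.length_cons]; have := hE.hN; omega
  · have := hE.hN; omega
  · intro x hx
    simp only [ech, List.mem_cons] at hx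
    rcases hx with rfl | rfl | rfl | rfl | rfl | rfl | hx
    · exact ⟨by have := hE.hlz.1; simp only; linarith, hE.hlz.2, ab _ (b1 _ h1 (by linarith))⟩
    · exact ⟨hE.hlp.1, by have := hE.hlp.2; simp only; linarith, ab _ (b1 _ h4 (by linarith))⟩
    · exact ⟨by have := hE.hla.1; simp only; linarith, by have := hE.hla.2; simp only; linarith,
        ab _ (b1 _ (by linarith) (by linarith))⟩
    · exact ⟨by have := hE.hlb.1; simp only; linarith, by have := hE.hlb.2; simp only; linarith,
        ab _ (b1 _ (by linarith) (by linarith))⟩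
    · exact ⟨hE.hlr.1, by have := hE.hlr.2; simp only; linarith,
        ab _ (b1 _ (by linarith) (by linarith))⟩
    · exact ⟨by have := hE.hlu.1; simp only; linarith, by have := hE.hlu.2; simp only; linarith,
        ab _ (b1 _ (by linarith) (by linarith))⟩
    · obtain ⟨q1, q2, q3, q4⟩ := hE.hrest' x hx
      refine ⟨q1, q2, abs_le.2 ⟨?_, q4⟩⟩
      nlinarith

theorem ech_wsorted {N : ℕ} {τ e lz lp la lb lr lu : ℝ} {rest : List Edge}
    (hE : EState N τ e lz lp la lb lr lu rest) {z p a b r u : ℝ} (h : TRange z p a b r u)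
    (h1 : z ≤ p) (h2 : p ≤ a) (h3 : b ≤ r) (h4 : r ≤ u) :
    WSorted (ech τ lz lp la lb lr lu rest z p a b r u) := by
  have hτ := hE.hτ
  have hr : ∀ e ∈ rest, τ * u ≤ e.2 := fun e he => by
    have := (hE.hrest' e he).2.2.1
    have := h.hu
    nlinarith
  have hab : a ≤ b := by have := h.ha; have := h.hb; linarith
  have m1 := mul_le_mul_of_nonneg_left h1 hτ.le
  have m2 := mul_le_mul_of_nonneg_left h2 hτ.le
  have m3 := mul_le_mul_of_nonneg_left hab hτ.le
  have m4 := mul_le_mul_of_nonneg_left h3 hτ.le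
  have m5 := mul_le_mul_of_nonneg_left h4 hτ.le
  simp only [WSorted, ech, List.pairwise_cons, List.mem_cons]
  refine ⟨?_, ?_, ?_, ?_, ?_, ?_, ?_⟩
  · rintro e (rfl | rfl | rfl | rfl | rfl | he)
    · exact m1
    · simp only; linarith
    · simp only; linarith
    · simp only; linarith
    · simp only; linarith
    · have := hr e he; linarith
  · rintro e (rfl | rfl | rfl | rfl | he)
    · exact m2
    · simp only; linarith
    · simp only; linarith
    · simp only; linarith
    · have := hr e he; linarith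
  · rintro e (rfl | rfl | rfl | he)
    · exact m3
    · simp only; linarith
    · simp only; linarith
    · have := hr e he; linarith
  · rintro e (rfl | rfl | he)
    · exact m4
    · simp only; linarith
    · have := hr e he; linarith
  · rintro e (rfl | he)
    · exact m5
    · have := hr e he; linarith
  · exact hr
  · exact hE.hrest.imp fun h => h.le

namespace TStep

/-- all flips of the twin phase -/
theorem step_iff {N : ℕ} {τ e lz lp la lb lr lu : ℝ} {rest : List Edge}
    (hE : EState N τ e lz lp la lb lr lu rest) {z p a b r u : ℝ} (h : TRange z p a b r u)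
    (c : List Edge) : CStep (ech τ lz lp la lb lr lu rest z p a b r u) c ↔
      (a < p ∧ c = (lz, τ * z) :: flipBlock [(lp, τ * p), (la, τ * a)] ++
        (lb, τ * b) :: (lr, τ * r) :: (lu, τ * u) :: rest) ∨
      (p < z ∧ c = flipBlock [(lz, τ * z), (lp, τ * p)] ++
        (la, τ * a) :: (lb, τ * b) :: (lr, τ * r) :: (lu, τ * u) :: rest) ∨
      (u < r ∧ c = (lz, τ * z) :: (lp, τ * p) :: (la, τ * a) :: (lb, τ * b) ::
        flipBlock [(lr, τ * r), (lu, τ * u)] ++ rest) ∨
      (r < b ∧ c = (lz, τ * z) :: (lp, τ * p) :: (la, τ * a) ::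
        flipBlock [(lb, τ * b), (lr, τ * r)] ++ (lu, τ * u) :: rest) := by
  have hτ := hE.hτ
  have hok := ech_ok hE h
  have hsm := small_of_ok hok
  have hsE : Small [(lz, τ * z), (lp, τ * p), (la, τ * a)] :=
    small_sub hsm (by intro x hx; simp [ech] at hx ⊢; tauto)
  have hsF : Small [(lb, τ * b), (lr, τ * r), (lu, τ * u)] :=
    small_sub hsm (by intro x hx; simp [ech] at hx ⊢; tauto)
  obtain ⟨L, hL⟩ := grp_exists hsE (mul_lt_mul_of_pos_left h.hza hτ)
  obtain ⟨R, hR⟩ := grp_exists hsF (mul_lt_mul_of_pos_left h.hbu hτ)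
  have h1 := h.hz
  have h2 := h.hza
  have h3 := h.ha
  have h4 := h.hp
  have h5 := h.hp'
  have h6 := h.hb
  have h7 := h.hbu
  have h8 := h.hu
  have h9 := h.hr
  have h10 := h.hr'
  have mm : ∀ {x y : ℝ}, x ≤ y → τ * x ≤ τ * y := fun hxy => mul_le_mul_of_nonneg_left hxy hτ.le
  have key := cs3_iff (rest := rest) hL hR (by
      intro x hx
      apply hsm
      simpa [ech] using hx) (x1 := τ * (1 / 16)) (x2 := τ * (1 / 4)) (x3 := τ * (1 / 2))
    (by
      intro x hx
      simp only [List.mem_cons, List.not_mem_nil, or_false] at hx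
      rcases hx with rfl | rfl | rfl <;> exact mm (by linarith))
    (by
      intro x hx
      simp only [List.mem_cons, List.not_mem_nil, or_false] at hx
      have : τ * (1 / 16) < τ * (1 / 4) := by linarith
      rcases hx with rfl | rfl | rfl <;> exact ⟨this, mm (by linarith), mm (by linarith)⟩)
    (by
      intro x hx
      have := (hE.hrest' x hx).2.2.1
      linarith) hE.hrest c
  have hm : ∀ {x y : ℝ}, τ * x < τ * y ↔ x < y := fun {x y} =>
    ⟨fun h => lt_of_mul_lt_mul_left h hτ.le, fun h => mul_lt_mul_of_pos_left h hτ⟩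
  simp only [hm] at key
  exact key

end TStep

/-- all flips of the twin phase; `za` and `ab` etc. are the new velocities -/
theorem tstep_cases {N : ℕ} {τ e lz lp la lb lr lu : ℝ} {rest : List Edge}
    (hE : EState N τ e lz lp la lb lr lu rest) {z p a b r u : ℝ} (h : TRange z p a b r u)
    {c : List Edge} (hc : CStep (ech τ lz lp la lb lr lu rest z p a b r u) c) :
    (a < p ∧ ∃ p' a', c = ech τ lz lp la lb lr lu rest z p' a' b r u ∧
      a ≤ a' ∧ a' ≤ a + 8 * lp * (p - a) ∧ a' - p' = p - a) ∨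
    (p < z ∧ ∃ z' p', c = ech τ lz lp la lb lr lu rest z' p' a b r u ∧
      z' ≤ z ∧ z - 8 * lp * (z - p) ≤ z' ∧ p' - z' = z - p) ∨
    (u < r ∧ ∃ r' u', c = ech τ lz lp la lb lr lu rest z p a b r' u' ∧
      u ≤ u' ∧ u' ≤ u + 8 * lr * (r - u) ∧ u' - r' = r - u) ∨
    (r < b ∧ ∃ b' r', c = ech τ lz lp la lb lr lu rest z p a b' r' u ∧
      b' ≤ b ∧ b - 32 * lr * (b - r) ≤ b' ∧ r' - b' = b - r) := by
  have hτ := hE.hτ
  have hsm := small_of_ok (ech_ok hE h)
  have qz := hsm (lz, τ * z) (by simp [ech])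
  have qp := hsm (lp, τ * p) (by simp [ech])
  have qa := hsm (la, τ * a) (by simp [ech])
  have qb := hsm (lb, τ * b) (by simp [ech])
  have qr := hsm (lr, τ * r) (by simp [ech])
  have qu := hsm (lu, τ * u) (by simp [ech])
  have lz1 := hE.hlz.1
  have la1 := hE.hla.1
  have lb1 := hE.hlb.1
  have lu1 := hE.hlu.1
  have lp0 := hE.hlp.1
  have lr0 := hE.hlr.1
  rcases (step_iff hE h c).1 hc with ⟨h1, rfl⟩ | ⟨h1, rfl⟩ | ⟨h1, rfl⟩ | ⟨h1, rfl⟩
  · obtain ⟨x', y', hf, g1, g2, g3, g4, g5⟩ := flip_two hτ qp.1 qa.1 qp.2 qa.2 h1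
    refine Or.inl ⟨h1, x', y', by rw [hf]; rfl, g1, ?_, g5⟩
    have : lp / la ≤ lp := div_le_self lp0.le la1
    have : lp / la * (p - a) ≤ lp * (p - a) := mul_le_mul_of_nonneg_right this (by linarith)
    have : 0 ≤ lp * (p - a) := mul_nonneg lp0.le (by linarith)
    linarith
  · obtain ⟨x', y', hf, g1, g2, g3, g4, g5⟩ := flip_two hτ qz.1 qp.1 qz.2 qp.2 h1
    refine Or.inr (Or.inl ⟨h1, x', y', by rw [hf]; rfl, g3, ?_, g5⟩)
    have : lp / lz ≤ lp := div_le_self lp0.le lz1
    have : lp / lz * (z - p) ≤ lp * (z - p) := mul_le_mul_of_nonneg_right this (by linarith)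
    have : 0 ≤ lp * (z - p) := mul_nonneg lp0.le (by linarith)
    linarith
  · obtain ⟨x', y', hf, g1, g2, g3, g4, g5⟩ := flip_two hτ qr.1 qu.1 qr.2 qu.2 h1
    refine Or.inr (Or.inr (Or.inl ⟨h1, x', y', by rw [hf]; rfl, g1, ?_, g5⟩))
    have : lr / lu ≤ lr := div_le_self lr0.le lu1
    have : lr / lu * (r - u) ≤ lr * (r - u) := mul_le_mul_of_nonneg_right this (by linarith)
    have : 0 ≤ lr * (r - u) := mul_nonneg lr0.le (by linarith)
    linarith
  · obtain ⟨x', y', hf, g1, g2, g3, g4, g5⟩ := flip_two hτ qb.1 qr.1 qb.2 qr.2 h1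
    refine Or.inr (Or.inr (Or.inr ⟨h1, x', y', by rw [hf]; rfl, g3, ?_, g5⟩))
    have : lr / lb ≤ 4 * lr := by
      rw [div_le_iff₀ qb.1]
      simp only
      nlinarith
    have : lr / lb * (b - r) ≤ 4 * lr * (b - r) := mul_le_mul_of_nonneg_right this (by linarith)
    have : 0 ≤ lr * (b - r) := mul_nonneg lr0.le (by linarith)
    linarith

theorem tstep_pa {N : ℕ} {τ e lz lp la lb lr lu : ℝ} {rest : List Edge}
    (hE : EState N τ e lz lp la lb lr lu rest) {z p a b r u : ℝ} (h : TRange z p a b r u)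
    (h1 : a < p) : ∃ p' a', CStep (ech τ lz lp la lb lr lu rest z p a b r u)
      (ech τ lz lp la lb lr lu rest z p' a' b r u) ∧
      a ≤ a' ∧ a' ≤ a + 8 * lp * (p - a) ∧ a' - p' = p - a := by
  have hτ := hE.hτ
  have hsm := small_of_ok (ech_ok hE h)
  have qp := hsm (lp, τ * p) (by simp [ech])
  have qa := hsm (la, τ * a) (by simp [ech])
  have la1 := hE.hla.1
  have lp0 := hE.hlp.1
  obtain ⟨x', y', hf, g1, g2, g3, g4, g5⟩ := flip_two hτ qp.1 qa.1 qp.2 qa.2 h1
  refine ⟨x', y', (step_iff hE h _).2 (Or.inl ⟨h1, by rw [hf]; rfl⟩), g1, ?_, g5⟩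
  have : lp / la ≤ lp := div_le_self lp0.le la1
  have : lp / la * (p - a) ≤ lp * (p - a) := mul_le_mul_of_nonneg_right this (by linarith)
  have : 0 ≤ lp * (p - a) := mul_nonneg lp0.le (by linarith)
  linarith

theorem tstep_zp {N : ℕ} {τ e lz lp la lb lr lu : ℝ} {rest : List Edge}
    (hE : EState N τ e lz lp la lb lr lu rest) {z p a b r u : ℝ} (h : TRange z p a b r u)
    (h1 : p < z) : ∃ z' p', CStep (ech τ lz lp la lb lr lu rest z p a b r u)
      (ech τ lz lp la lb lr lu rest z' p' a b r u) ∧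
      z' ≤ z ∧ z - 8 * lp * (z - p) ≤ z' ∧ p' - z' = z - p := by
  have hτ := hE.hτ
  have hsm := small_of_ok (ech_ok hE h)
  have qz := hsm (lz, τ * z) (by simp [ech])
  have qp := hsm (lp, τ * p) (by simp [ech])
  have lz1 := hE.hlz.1
  have lp0 := hE.hlp.1
  obtain ⟨x', y', hf, g1, g2, g3, g4, g5⟩ := flip_two hτ qz.1 qp.1 qz.2 qp.2 h1
  refine ⟨x', y', (step_iff hE h _).2 (Or.inr (Or.inl ⟨h1, by rw [hf]; rfl⟩)), g3, ?_, g5⟩
  have : lp / lz ≤ lp := div_le_self lp0.le lz1
  have : lp / lz * (z - p) ≤ lp * (z - p) := mul_le_mul_of_nonneg_right this (by linarith)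
  have : 0 ≤ lp * (z - p) := mul_nonneg lp0.le (by linarith)
  linarith

theorem tstep_ru {N : ℕ} {τ e lz lp la lb lr lu : ℝ} {rest : List Edge}
    (hE : EState N τ e lz lp la lb lr lu rest) {z p a b r u : ℝ} (h : TRange z p a b r u)
    (h1 : u < r) : ∃ r' u', CStep (ech τ lz lp la lb lr lu rest z p a b r u)
      (ech τ lz lp la lb lr lu rest z p a b r' u') ∧
      u ≤ u' ∧ u' ≤ u + 8 * lr * (r - u) ∧ u' - r' = r - u := by
  have hτ := hE.hτ
  have hsm := small_of_ok (ech_ok hE h)
  have qr := hsm (lr, τ * r) (by simp [ech])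
  have qu := hsm (lu, τ * u) (by simp [ech])
  have lu1 := hE.hlu.1
  have lr0 := hE.hlr.1
  obtain ⟨x', y', hf, g1, g2, g3, g4, g5⟩ := flip_two hτ qr.1 qu.1 qr.2 qu.2 h1
  refine ⟨x', y', (step_iff hE h _).2 (Or.inr (Or.inr (Or.inl ⟨h1, by rw [hf]; rfl⟩))), g1, ?_, g5⟩
  have : lr / lu ≤ lr := div_le_self lr0.le lu1
  have : lr / lu * (r - u) ≤ lr * (r - u) := mul_le_mul_of_nonneg_right this (by linarith)
  have : 0 ≤ lr * (r - u) := mul_nonneg lr0.le (by linarith)
  linarith

theorem tstep_br {N : ℕ} {τ e lz lp la lb lr lu : ℝ} {rest : List Edge}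
    (hE : EState N τ e lz lp la lb lr lu rest) {z p a b r u : ℝ} (h : TRange z p a b r u)
    (h1 : r < b) : ∃ b' r', CStep (ech τ lz lp la lb lr lu rest z p a b r u)
      (ech τ lz lp la lb lr lu rest z p a b' r' u) ∧
      b' ≤ b ∧ b - 32 * lr * (b - r) ≤ b' ∧ r' - b' = b - r := by
  have hτ := hE.hτ
  have hsm := small_of_ok (ech_ok hE h)
  have qb := hsm (lb, τ * b) (by simp [ech])
  have qr := hsm (lr, τ * r) (by simp [ech])
  have lb1 := hE.hlb.1
  have lr0 := hE.hlr.1
  obtain ⟨x', y', hf, g1, g2, g3, g4, g5⟩ := flip_two hτ qb.1 qr.1 qb.2 qr.2 h1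
  refine ⟨x', y', (step_iff hE h _).2 (Or.inr (Or.inr (Or.inr ⟨h1, by rw [hf]; rfl⟩))), g3, ?_, g5⟩
  have : lr / lb ≤ 4 * lr := by
    rw [div_le_iff₀ qb.1]
    simp only
    nlinarith
  have : lr / lb * (b - r) ≤ 4 * lr * (b - r) := mul_le_mul_of_nonneg_right this (by linarith)
  have : 0 ≤ lr * (b - r) := mul_nonneg lr0.le (by linarith)
  linarith

end Pool.Agent.Helper20.Flip.Sh
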